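import Pool.Agent.X71.Td.Low

/-!
# Gluing, and the extremal graphs
-/

set_option autoImplicit false
set_option linter.unusedSectionVars false

open Finset

namespace Pool.Agent.X71.Td

/-- a partial gluing with free positions `P` -/
structure Part {H : Type*} (ι : H × Fin 3 → H × Fin 3) (P : H × Fin 3 → Prop) : Prop where
  inv : ∀ x, ι (ι x) = x
  fix : ∀ x, P x → ι x = x
  nf : ∀ x, ¬ P x → (ι x).1 ≠ x.1
  conn : ∀ a b, Relation.ReflTransGen (Rl ι) a b

variable {H₁ H₂ : Type*} [DecidableEq H₁] [DecidableEq H₂]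

/-- the left inclusion -/
def iL (x : H₁ × Fin 3) : (H₁ ⊕ H₂) × Fin 3 := (Sum.inl x.1, x.2)

/-- the right inclusion -/
def iR (x : H₂ × Fin 3) : (H₁ ⊕ H₂) × Fin 3 := (Sum.inr x.1, x.2)

/-- gluing at two free positions -/
def gl (ι₁ : H₁ × Fin 3 → H₁ × Fin 3) (p : H₁ × Fin 3) (ι₂ : H₂ × Fin 3 → H₂ × Fin 3)
    (q : H₂ × Fin 3) : (H₁ ⊕ H₂) × Fin 3 → (H₁ ⊕ H₂) × Fin 3
  | (Sum.inl h, i) => if (h, i) = p then iR q else iL (ι₁ (h, i))
  | (Sum.inr h, i) => if (h, i) = q then iL p else iR (ι₂ (h, i))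

variable {ι₁ : H₁ × Fin 3 → H₁ × Fin 3} {p : H₁ × Fin 3} {ι₂ : H₂ × Fin 3 → H₂ × Fin 3}
  {q : H₂ × Fin 3}

lemma gl_L (x : H₁ × Fin 3) : gl ι₁ p ι₂ q (iL x) = if x = p then iR q else iL (ι₁ x) := rfl

lemma gl_R (x : H₂ × Fin 3) : gl ι₁ p ι₂ q (iR x) = if x = q then iL p else iR (ι₂ x) := rfl

lemma iLR (z : (H₁ ⊕ H₂) × Fin 3) : (∃ x : H₁ × Fin 3, z = iL x) ∨ (∃ x : H₂ × Fin 3, z = iR x) := by
  obtain ⟨h | h, i⟩ := z
  · exact Or.inl ⟨(h, i), rfl⟩
  · exact Or.inr ⟨(h, i), rfl⟩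

lemma Rl_L (hp : ι₁ p = p) {a b : H₁} (h : Rl ι₁ a b) :
    Relation.ReflTransGen (Rl (gl ι₁ p ι₂ q)) (Sum.inl a) (Sum.inl b) := by
  obtain ⟨i, j, hij⟩ := h
  by_cases h1 : (a, i) = p
  · rw [h1, hp, ← h1] at hij
    rw [show a = b from congrArg Prod.fst hij]
  · refine Relation.ReflTransGen.single ⟨i, j, ?_⟩
    have := gl_L (ι₂ := ι₂) (p := p) (q := q) (ι₁ := ι₁) (a, i)
    rw [if_neg h1, hij] at this
    exact this

lemma Rl_R (hq : ι₂ q = q) {a b : H₂} (h : Rl ι₂ a b) :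
    Relation.ReflTransGen (Rl (gl ι₁ p ι₂ q)) (Sum.inr a) (Sum.inr b) := by
  obtain ⟨i, j, hij⟩ := h
  by_cases h1 : (a, i) = q
  · rw [h1, hq, ← h1] at hij
    rw [show a = b from congrArg Prod.fst hij]
  · refine Relation.ReflTransGen.single ⟨i, j, ?_⟩
    have := gl_R (ι₂ := ι₂) (p := p) (q := q) (ι₁ := ι₁) (a, i)
    rw [if_neg h1, hij] at this
    exact this

/-- the free positions after gluing -/
def glP (P₁ : H₁ × Fin 3 → Prop) (p : H₁ × Fin 3) (P₂ : H₂ × Fin 3 → Prop) (q : H₂ × Fin 3) :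
    (H₁ ⊕ H₂) × Fin 3 → Prop
  | (Sum.inl h, i) => P₁ (h, i) ∧ (h, i) ≠ p
  | (Sum.inr h, i) => P₂ (h, i) ∧ (h, i) ≠ q

theorem Part.glue {P₁ : H₁ × Fin 3 → Prop} {P₂ : H₂ × Fin 3 → Prop} (h₁ : Part ι₁ P₁)
    (h₂ : Part ι₂ P₂) (hp : P₁ p) (hq : P₂ q) : Part (gl ι₁ p ι₂ q) (glP P₁ p P₂ q) := by
  have hpf := h₁.fix p hp
  have hqf := h₂.fix q hq
  refine ⟨?_, ?_, ?_, ?_⟩
  · intro z
    rcases iLR z with ⟨x, rfl⟩ | ⟨x, rfl⟩
    · rw [gl_L]
      by_cases h : x = p
      · rw [if_pos h, gl_R, if_pos rfl, h]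
      · rw [if_neg h, gl_L, if_neg, h₁.inv]
        intro h3
        apply h
        rw [← h₁.inv x, h3, hpf]
    · rw [gl_R]
      by_cases h : x = q
      · rw [if_pos h, gl_L, if_pos rfl, h]
      · rw [if_neg h, gl_R, if_neg, h₂.inv]
        intro h3
        apply h
        rw [← h₂.inv x, h3, hqf]
  · intro z hz
    rcases iLR z with ⟨x, rfl⟩ | ⟨x, rfl⟩
    · obtain ⟨h1, h2⟩ := (hz : P₁ x ∧ x ≠ p)
      rw [gl_L, if_neg h2, h₁.fix x h1]
    · obtain ⟨h1, h2⟩ := (hz : P₂ x ∧ x ≠ q)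
      rw [gl_R, if_neg h2, h₂.fix x h1]
  · intro z hz
    rcases iLR z with ⟨x, rfl⟩ | ⟨x, rfl⟩
    · have h1 : ¬ (P₁ x ∧ x ≠ p) := hz
      rw [gl_L]
      by_cases h : x = p
      · rw [if_pos h]
        exact Sum.inr_ne_inl
      · rw [if_neg h]
        have h2 : ¬ P₁ x := fun h3 => h1 ⟨h3, h⟩
        intro h3
        exact h₁.nf x h2 (Sum.inl.inj h3)
    · have h1 : ¬ (P₂ x ∧ x ≠ q) := hz
      rw [gl_R]
      by_cases h : x = q
      · rw [if_pos h]
        exact Sum.inl_ne_inr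
      · rw [if_neg h]
        have h2 : ¬ P₂ x := fun h3 => h1 ⟨h3, h⟩
        intro h3
        exact h₂.nf x h2 (Sum.inr.inj h3)
  · have hL : ∀ a b : H₁, Relation.ReflTransGen (Rl (gl ι₁ p ι₂ q)) (Sum.inl a) (Sum.inl b) := by
      intro a b
      have h := h₁.conn a b
      induction h with
      | refl => exact Relation.ReflTransGen.refl
      | tail _ h ih => exact ih.trans (Rl_L hpf h)
    have hR : ∀ a b : H₂, Relation.ReflTransGen (Rl (gl ι₁ p ι₂ q)) (Sum.inr a) (Sum.inr b) := by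
      intro a b
      have h := h₂.conn a b
      induction h with
      | refl => exact Relation.ReflTransGen.refl
      | tail _ h ih => exact ih.trans (Rl_R hqf h)
    have hLR : Rl (gl ι₁ p ι₂ q) (Sum.inl p.1) (Sum.inr q.1) := by
      refine ⟨p.2, q.2, ?_⟩
      have := gl_L (ι₂ := ι₂) (p := p) (q := q) (ι₁ := ι₁) p
      rw [if_pos rfl] at this
      exact this
    have hRL : Rl (gl ι₁ p ι₂ q) (Sum.inr q.1) (Sum.inl p.1) := by
      refine ⟨q.2, p.2, ?_⟩
      have := gl_R (ι₂ := ι₂) (p := p) (q := q) (ι₁ := ι₁) q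
      rw [if_pos rfl] at this
      exact this
    rintro (a | a) (b | b)
    · exact hL a b
    · exact ((hL a p.1).tail hLR).trans (hR q.1 b)
    · exact ((hR a q.1).tail hRL).trans (hL p.1 b)
    · exact hR a b

/-- a graph with one free position, with a certificate -/
def PGe (N d : ℕ) : Prop :=
  ∃ (H I : Type) (_ : Fintype H) (_ : DecidableEq H) (_ : Fintype I) (_ : DecidableEq I)
    (ι : H × Fin 3 → H × Fin 3) (p : H × Fin 3) (lab : H → Option I),
    Part ι (fun x => x = p) ∧ lab p.1 = none ∧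
    (∀ i, Odd (univ.filter fun h => lab h = some i).card) ∧
    (∀ x i, lab x.1 = some i → lab (ι x).1 = some i ∨ lab (ι x).1 = none) ∧
    Fintype.card H = N ∧ Fintype.card I = (univ.filter fun h => lab h = none).card + d

/-- a cap -/
def Cape (N : ℕ) : Prop :=
  ∃ (H : Type) (_ : Fintype H) (_ : DecidableEq H) (ι : H × Fin 3 → H × Fin 3) (p : H × Fin 3),
    Part ι (fun x => x = p) ∧ Fintype.card H = N

/-- a graph in the class with a lower bound for its total dominating sets -/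
def Closed (N d : ℕ) : Prop :=
  ∃ (V : Type) (_ : Fintype V) (_ : DecidableEq V) (G : SimpleGraph V), G.Connected ∧ Cubic G ∧
    ClawFree G ∧ DiamondFree G ∧ Fintype.card V = 3 * N ∧
    ∀ S : Finset V, (∀ v, ∃ u ∈ S, G.Adj v u) → N + d ≤ S.card

lemma card_sum_filter {A B : Type*} [Fintype A] [Fintype B] [DecidableEq A] [DecidableEq B]
    (P : A ⊕ B → Prop) [DecidablePred P] :
    (univ.filter P).card = (univ.filter fun a => P (Sum.inl a)).card +
      (univ.filter fun b => P (Sum.inr b)).card := by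
  rw [card_filter, card_filter, card_filter, Fintype.sum_sum_type]

section labels

variable {I₁ I₂ : Type*} (lab₁ : H₁ → Option I₁) (lab₂ : H₂ → Option I₂)

/-- the glued labels -/
def glab : H₁ ⊕ H₂ → Option (I₁ ⊕ I₂)
  | Sum.inl h => (lab₁ h).map Sum.inl
  | Sum.inr h => (lab₂ h).map Sum.inr

variable {lab₁ lab₂}

lemma glab_inl_inl (h : H₁) (i : I₁) :
    glab lab₁ lab₂ (Sum.inl h) = some (Sum.inl i) ↔ lab₁ h = some i := by
  cases hh : lab₁ h <;> simp [glab, hh]

lemma glab_inl_inr (h : H₁) (i : I₂) : ¬ glab lab₁ lab₂ (Sum.inl h) = some (Sum.inr i) := by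
  cases hh : lab₁ h <;> simp [glab, hh]

lemma glab_inr_inr (h : H₂) (i : I₂) :
    glab lab₁ lab₂ (Sum.inr h) = some (Sum.inr i) ↔ lab₂ h = some i := by
  cases hh : lab₂ h <;> simp [glab, hh]

lemma glab_inr_inl (h : H₂) (i : I₁) : ¬ glab lab₁ lab₂ (Sum.inr h) = some (Sum.inl i) := by
  cases hh : lab₂ h <;> simp [glab, hh]

lemma glab_inl_none (h : H₁) : glab lab₁ lab₂ (Sum.inl h) = none ↔ lab₁ h = none := by
  cases hh : lab₁ h <;> simp [glab, hh]

lemma glab_inr_none (h : H₂) : glab lab₁ lab₂ (Sum.inr h) = none ↔ lab₂ h = none := by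
  cases hh : lab₂ h <;> simp [glab, hh]

lemma glab_cl (hp : lab₁ p.1 = none)
    (h₁ : ∀ x i, lab₁ x.1 = some i → lab₁ (ι₁ x).1 = some i ∨ lab₁ (ι₁ x).1 = none)
    (h₂ : ∀ x i, lab₂ x.1 = some i → lab₂ (ι₂ x).1 = some i ∨ lab₂ (ι₂ x).1 = none)
    (z : (H₁ ⊕ H₂) × Fin 3) (i : I₁ ⊕ I₂) (hz : glab lab₁ lab₂ z.1 = some i) :
    glab lab₁ lab₂ (gl ι₁ p ι₂ q z).1 = some i ∨ glab lab₁ lab₂ (gl ι₁ p ι₂ q z).1 = none := by
  rcases iLR z with ⟨x, rfl⟩ | ⟨x, rfl⟩
  · change glab lab₁ lab₂ (Sum.inl x.1) = some i at hz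
    rw [gl_L]
    by_cases h : x = p
    · exfalso
      rw [h] at hz
      rw [(glab_inl_none p.1).mpr hp] at hz
      exact absurd hz (by simp)
    · rw [if_neg h]
      change glab lab₁ lab₂ (Sum.inl (ι₁ x).1) = some i ∨ glab lab₁ lab₂ (Sum.inl (ι₁ x).1) = none
      cases i with
      | inl i =>
        rw [glab_inl_inl] at hz ⊢
        rw [glab_inl_none]
        exact h₁ x i hz
      | inr i => exact absurd hz (glab_inl_inr _ _)
  · change glab lab₁ lab₂ (Sum.inr x.1) = some i at hz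
    rw [gl_R]
    by_cases h : x = q
    · right
      rw [if_pos h]
      exact (glab_inl_none p.1).mpr hp
    · rw [if_neg h]
      change glab lab₁ lab₂ (Sum.inr (ι₂ x).1) = some i ∨ glab lab₁ lab₂ (Sum.inr (ι₂ x).1) = none
      cases i with
      | inl i => exact absurd hz (glab_inr_inl _ _)
      | inr i =>
        rw [glab_inr_inr] at hz ⊢
        rw [glab_inr_none]
        exact h₂ x i hz

variable [Fintype H₁] [Fintype H₂] [DecidableEq I₁] [DecidableEq I₂]

lemma glab_odd (h₁ : ∀ i, Odd (univ.filter fun h => lab₁ h = some i).card)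
    (h₂ : ∀ i, Odd (univ.filter fun h => lab₂ h = some i).card) (i : I₁ ⊕ I₂) :
    Odd (univ.filter fun h => glab lab₁ lab₂ h = some i).card := by
  rw [card_sum_filter]
  cases i with
  | inl i =>
    simp only [glab_inl_inl, glab_inr_inl, filter_false, card_empty, add_zero]
    exact h₁ i
  | inr i =>
    simp only [glab_inr_inr, glab_inl_inr, filter_false, card_empty, zero_add]
    exact h₂ i

lemma glab_none : (univ.filter fun h => glab lab₁ lab₂ h = none).card =
    (univ.filter fun h => lab₁ h = none).card + (univ.filter fun h => lab₂ h = none).card := by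
  rw [card_sum_filter]
  simp only [glab_inl_none, glab_inr_none]

end labels

/-- connectivity from parents -/
lemma conn_of_parent {m : ℕ} [NeZero m] {ι : Fin m × Fin 3 → Fin m × Fin 3}
    (inv : ∀ x, ι (ι x) = x)
    (h : ∀ b : Fin m, b ≠ 0 → ∃ a : Fin m, a < b ∧ ∃ i, (ι (a, i)).1 = b) (a b : Fin m) :
    Relation.ReflTransGen (Rl ι) a b := by
  have h0 : ∀ (k : ℕ) (b : Fin m), (b : ℕ) = k → Relation.ReflTransGen (Rl ι) 0 b := by
    intro k
    induction k using Nat.strong_induction_on with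
    | _ k ih =>
      intro b hb
      by_cases hb0 : b = 0
      · rw [hb0]
      · obtain ⟨a, hab, i, hi⟩ := h b hb0
        have h1 := ih a (by rw [← hb]; exact hab) a rfl
        refine h1.tail ⟨i, (ι (a, i)).2, ?_⟩
        rw [← hi]
  have hsymm : ∀ x y, Rl ι x y → Rl ι y x := by
    rintro x y ⟨i, j, hij⟩
    exact ⟨j, i, by rw [← hij, inv]⟩
  have hrev : ∀ y, Relation.ReflTransGen (Rl ι) 0 y → Relation.ReflTransGen (Rl ι) y 0 := by
    intro y hy
    induction hy with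
    | refl => exact Relation.ReflTransGen.refl
    | tail _ h ih => exact ih.head (hsymm _ _ h)
  exact (hrev _ (h0 _ a rfl)).trans (h0 _ b rfl)

/-- tables -/
def tab {m : ℕ} (T : List (List (ℕ × ℕ))) (x : Fin m × Fin 3) (hm : 0 < m) : Fin m × Fin 3 :=
  let r := (T.getD x.1 []).getD x.2 (0, 0)
  (⟨r.1 % m, Nat.mod_lt _ hm⟩, ⟨r.2 % 3, Nat.mod_lt _ (by norm_num)⟩)

/-- the base piece: a vertex with two pendant blocks -/
def base : Fin 7 × Fin 3 → Fin 7 × Fin 3 := fun x =>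
  tab [[(0, 0), (1, 0), (4, 0)], [(0, 1), (2, 0), (3, 0)], [(1, 1), (3, 1), (3, 2)],
    [(1, 2), (2, 1), (2, 2)], [(0, 2), (5, 0), (6, 0)], [(4, 1), (6, 1), (6, 2)],
    [(4, 2), (5, 1), (5, 2)]] x (by norm_num)

/-- the labels of the base piece -/
def baseLab : Fin 7 → Option (Fin 2) := ![none, some 0, some 0, some 0, some 1, some 1, some 1]

lemma base_part : Part base (fun x => x = (0, 0)) := by
  have inv : ∀ x, base (base x) = x := by decide +kernel
  refine ⟨inv, by decide +kernel, by decide +kernel, conn_of_parent inv (by decide +kernel)⟩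

lemma PGe_base : PGe 7 1 :=
  ⟨Fin 7, Fin 2, inferInstance, inferInstance, inferInstance, inferInstance, base, (0, 0), baseLab,
    base_part, by decide +kernel, by decide +kernel, by decide +kernel, by decide +kernel,
    by decide +kernel⟩

/-- the middle piece -/
def mid : Fin 12 × Fin 3 → Fin 12 × Fin 3 := fun x =>
  tab [[(0, 0), (1, 0), (8, 0)], [(0, 1), (2, 0), (5, 0)], [(1, 1), (3, 0), (4, 0)],
    [(2, 1), (4, 1), (4, 2)], [(2, 2), (3, 1), (3, 2)], [(1, 2), (6, 0), (7, 0)],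
    [(5, 1), (7, 1), (7, 2)], [(5, 2), (6, 1), (6, 2)], [(0, 2), (9, 0), (8, 2)],
    [(8, 1), (10, 0), (11, 0)], [(9, 1), (11, 1), (11, 2)], [(9, 2), (10, 1), (10, 2)]]
    x (by norm_num)

/-- the labels of the middle piece -/
def midLab : Fin 12 → Option (Fin 4) :=
  ![some 0, none, some 1, some 1, some 1, some 2, some 2, some 2, none, some 3, some 3, some 3]

lemma mid_part : Part mid (fun x => x = (0, 0) ∨ x = (8, 2)) := by
  have inv : ∀ x, mid (mid x) = x := by decide +kernel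
  refine ⟨inv, by decide +kernel, by decide +kernel, conn_of_parent inv (by decide +kernel)⟩

lemma PGe_step {N d : ℕ} (h : PGe N d) : PGe (N + 12) (d + 2) := by
  obtain ⟨H, I, _, _, _, _, ι, p, lab, hpart, hlp, hodd, hcl, hN, hI⟩ := h
  have hg := hpart.glue mid_part (p := p) (q := (0, 0)) rfl (Or.inl rfl)
  have hcl2 : ∀ (x : Fin 12 × Fin 3) (i : Fin 4), midLab x.1 = some i →
      midLab (mid x).1 = some i ∨ midLab (mid x).1 = none := by decide +kernel
  have hodd2 : ∀ i : Fin 4, Odd (univ.filter fun h => midLab h = some i).card := by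
    decide +kernel
  refine ⟨H ⊕ Fin 12, I ⊕ Fin 4, inferInstance, inferInstance, inferInstance, inferInstance,
    gl ι p mid (0, 0), iR (8, 2), glab lab midLab, ?_, ?_, glab_odd hodd hodd2,
    glab_cl hlp hcl hcl2, ?_, ?_⟩
  · refine ⟨hg.inv, fun x hx => ?_, fun x hx => ?_, hg.conn⟩
    · subst hx
      refine hg.fix _ ?_
      exact ⟨Or.inr rfl, by decide⟩
    · refine hg.nf x fun hP => hx ?_
      rcases iLR x with ⟨y, rfl⟩ | ⟨y, rfl⟩
      · obtain ⟨h1, h2⟩ := (hP : y = p ∧ y ≠ p)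
        exact absurd h1 h2
      · obtain ⟨h1 | h1, h2⟩ := (hP : (y = (0, 0) ∨ y = (8, 2)) ∧ y ≠ (0, 0))
        · exact absurd h1 h2
        · exact congrArg iR (show y = (8, 2) from h1)
  · rfl
  · rw [Fintype.card_sum, hN, Fintype.card_fin]
  · rw [Fintype.card_sum, hI, Fintype.card_fin, glab_none]
    have h3 : (univ.filter fun h => midLab h = none).card = 2 := by decide +kernel
    rw [h3]
    omega

/-- the smallest cap -/
def cap0 : Fin 3 × Fin 3 → Fin 3 × Fin 3 := fun x =>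
  tab [[(0, 0), (1, 0), (2, 0)], [(0, 1), (2, 1), (2, 2)], [(0, 2), (1, 1), (1, 2)]]
    x (by norm_num)

lemma cap0_part : Part cap0 (fun x => x = (0, 0)) := by
  have inv : ∀ x, cap0 (cap0 x) = x := by decide +kernel
  refine ⟨inv, by decide +kernel, by decide +kernel, conn_of_parent inv (by decide +kernel)⟩

lemma Cape_zero : Cape 3 :=
  ⟨Fin 3, inferInstance, inferInstance, cap0, (0, 0), cap0_part, by simp⟩

/-- two vertices joined twice -/
def dig : Fin 2 × Fin 3 → Fin 2 × Fin 3 := fun x =>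
  tab [[(0, 0), (1, 1), (1, 2)], [(1, 0), (0, 1), (0, 2)]] x (by norm_num)

lemma dig_part : Part dig (fun x => x = (0, 0) ∨ x = (1, 0)) := by
  have inv : ∀ x, dig (dig x) = x := by decide +kernel
  refine ⟨inv, by decide +kernel, by decide +kernel, conn_of_parent inv (by decide +kernel)⟩

lemma Cape_step {N : ℕ} (h : Cape N) : Cape (N + 2) := by
  obtain ⟨H, _, _, ι, p, hpart, hN⟩ := h
  have hg := hpart.glue dig_part (p := p) (q := (1, 0)) rfl (Or.inr rfl)
  refine ⟨H ⊕ Fin 2, inferInstance, inferInstance, gl ι p dig (1, 0), iR (0, 0), ?_, ?_⟩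
  · refine ⟨hg.inv, fun x hx => ?_, fun x hx => ?_, hg.conn⟩
    · subst hx
      refine hg.fix _ ?_
      exact ⟨Or.inl rfl, by decide⟩
    · refine hg.nf x fun hP => hx ?_
      rcases iLR x with ⟨y, rfl⟩ | ⟨y, rfl⟩
      · obtain ⟨h1, h2⟩ := (hP : y = p ∧ y ≠ p)
        exact absurd h1 h2
      · obtain ⟨h1 | h1, h2⟩ := (hP : (y = (0, 0) ∨ y = (1, 0)) ∧ y ≠ (1, 0))
        · exact congrArg iR (show y = (0, 0) from h1)
        · exact absurd h1 h2
  · rw [Fintype.card_sum, hN, Fintype.card_fin]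

lemma Closed_of {N d M : ℕ} (h : PGe N d) (hM : Cape M) (hMo : Odd M) :
    Closed (N + M) (d + 1) := by
  obtain ⟨H, I, _, _, _, _, ι, p, lab, hpart, hlp, hodd, hcl, hN, hI⟩ := h
  obtain ⟨K, _, _, κ, q, hK, hKM⟩ := hM
  have hg := hpart.glue hK (p := p) (q := q) rfl rfl
  have hnf : ∀ x, (gl ι p κ q x).1 ≠ x.1 := by
    intro x
    refine hg.nf x fun hP => ?_
    rcases iLR x with ⟨y, rfl⟩ | ⟨y, rfl⟩
    · obtain ⟨h1, h2⟩ := (hP : y = p ∧ y ≠ p)
      exact h2 h1
    · obtain ⟨h1, h2⟩ := (hP : y = q ∧ y ≠ q)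
      exact h2 h1
  have : Nonempty (H ⊕ K) := ⟨Sum.inl p.1⟩
  let lab2 : K → Option Unit := fun _ => some ()
  have hodd2 : ∀ i : Unit, Odd (univ.filter fun h => lab2 h = some i).card := by
    intro i
    rw [filter_true_of_mem (fun _ _ => rfl), card_univ, hKM]
    exact hMo
  have hcl2 : ∀ (x : K × Fin 3) (i : Unit), lab2 x.1 = some i →
      lab2 (κ x).1 = some i ∨ lab2 (κ x).1 = none := fun _ _ _ => Or.inl rfl
  refine ⟨(H ⊕ K) × Fin 3, inferInstance, inferInstance, gr (gl ι p κ q) hg.inv hnf,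
    gr_connected hg.conn, gr_cubic, gr_claw, gr_diamond, ?_, ?_⟩
  · rw [Fintype.card_prod, Fintype.card_sum, hN, hKM, Fintype.card_fin]
    ring
  · intro S hS
    have h3 : (univ.filter fun h => lab2 h = none).card = 0 := by
      rw [card_eq_zero, filter_eq_empty_iff]
      intro h _ h4
      exact absurd h4 (by simp [lab2])
    have h4 := low_all (H := H ⊕ K) (lab := glab lab lab2) (glab_cl hlp hcl hcl2) hS
      (glab_odd hodd hodd2) (d := d + 1) (by
        rw [Fintype.card_sum, hI, glab_none, h3, Fintype.card_unit]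
        ring)
    rw [Fintype.card_sum, hN, hKM] at h4
    exact h4

lemma PGe_all (t : ℕ) : PGe (7 + 12 * t) (1 + 2 * t) := by
  induction t with
  | zero => exact PGe_base
  | succ t ih => exact PGe_step ih

lemma Cape_all (j : ℕ) : Cape (3 + 2 * j) := by
  induction j with
  | zero => exact Cape_zero
  | succ j ih => exact Cape_step ih

/-- the extremal graphs -/
theorem Closed_all (t j : ℕ) : Closed (10 + 12 * t + 2 * j) (2 + 2 * t) := by
  have h := Closed_of (PGe_all t) (Cape_all j) (by rw [Nat.odd_iff]; omega)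
  rw [show 10 + 12 * t + 2 * j = 7 + 12 * t + (3 + 2 * j) by ring,
    show 2 + 2 * t = 1 + 2 * t + 1 by ring]
  exact h

end Pool.Agent.X71.Td
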