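import Mathlib

/-!
# Triangles in claw-free diamond-free cubic graphs
-/

set_option autoImplicit false

open Finset

namespace Pool.Agent.X71.Td

variable {V : Type*}

/-- there is no induced claw -/
def ClawFree (G : SimpleGraph V) : Prop :=
  ∀ v a b c, G.Adj v a → G.Adj v b → G.Adj v c → a ≠ b → a ≠ c → b ≠ c →
    G.Adj a b ∨ G.Adj a c ∨ G.Adj b c

/-- there is no induced diamond -/
def DiamondFree (G : SimpleGraph V) : Prop :=
  ∀ a b c d, a ≠ d → G.Adj a b → G.Adj a c → G.Adj b c → G.Adj b d → G.Adj c d → G.Adj a d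

/-- every vertex has exactly three neighbours -/
def Cubic (G : SimpleGraph V) : Prop :=
  ∀ v, ∃ a b c, a ≠ b ∧ a ≠ c ∧ b ≠ c ∧ ∀ u, G.Adj v u ↔ u = a ∨ u = b ∨ u = c

/-- the decomposition into triangles -/
structure TriData [DecidableEq V] (G : SimpleGraph V) where
  /-- the triangle of a vertex -/
  t : V → Finset V
  /-- the neighbour outside the triangle -/
  c : V → V
  mem : ∀ v, v ∈ t v
  card : ∀ v, (t v).card = 3
  same : ∀ v u, u ∈ t v → t u = t v
  cc : ∀ v, c (c v) = v
  tc : ∀ v, t (c v) ≠ t v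
  adj : ∀ v u, G.Adj v u ↔ (u ∈ t v ∧ u ≠ v) ∨ u = c v

lemma closed_univ {G : SimpleGraph V} (hG : G.Connected) {K : Set V} {x : V} (hx : x ∈ K)
    (hcl : ∀ x ∈ K, ∀ y, G.Adj x y → y ∈ K) (y : V) : y ∈ K := by
  obtain ⟨w⟩ := hG.preconnected x y
  induction w with
  | nil => exact hx
  | cons h _ ih => exact ih (hcl _ hx _ h)

lemma cubic_eq {G : SimpleGraph V} (hc : Cubic G) {v x y z : V} (hx : G.Adj v x)
    (hy : G.Adj v y) (hz : G.Adj v z) (hxy : x ≠ y) (hxz : x ≠ z) (hyz : y ≠ z) (u : V) :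
    G.Adj v u ↔ u = x ∨ u = y ∨ u = z := by
  obtain ⟨a, b, c, hab, hac, hbc, h⟩ := hc v
  rw [h] at hx hy hz ⊢
  rcases hx with hx | hx | hx <;> rcases hy with hy | hy | hy <;>
    rcases hz with hz | hz | hz <;> subst hx <;> (try subst hy) <;> (try subst hz) <;> tauto

lemma exists_triData [Fintype V] [DecidableEq V] {G : SimpleGraph V} (hG : G.Connected)
    (hc : Cubic G) (hcf : ClawFree G) (hdf : DiamondFree G) (hV : 5 ≤ Fintype.card V) :
    Nonempty (TriData G) := by
  classical
  have hK4 : ∀ v a b c, G.Adj v a → G.Adj v b → G.Adj v c → a ≠ b → a ≠ c → b ≠ c →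
      G.Adj a b → G.Adj a c → G.Adj b c → False := by
    intro v a b c hva hvb hvc hab hac hbc h1 h2 h3
    have e1 := cubic_eq hc hva hvb hvc hab hac hbc
    have e2 := cubic_eq hc hva.symm h1 h2 hvb.ne hvc.ne hbc
    have e3 := cubic_eq hc hvb.symm h1.symm h3 hva.ne hvc.ne hac
    have e4 := cubic_eq hc hvc.symm h2.symm h3.symm hva.ne hvb.ne hab
    have h4 : ∀ y, y ∈ ({v, a, b, c} : Set V) := by
      refine closed_univ hG (x := v) (by simp) ?_
      intro x hx y hxy
      simp only [Set.mem_insert_iff, Set.mem_singleton_iff] at hx ⊢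
      rcases hx with rfl | rfl | rfl | rfl
      · rw [e1] at hxy; tauto
      · rw [e2] at hxy; tauto
      · rw [e3] at hxy; tauto
      · rw [e4] at hxy; tauto
    have h5 : (univ : Finset V) ⊆ {v, a, b, c} := by
      intro y _
      have := h4 y
      simpa using this
    have h6 := card_le_card h5
    rw [card_univ] at h6
    have h7 : ({v, a, b, c} : Finset V).card ≤ 4 := card_le_four
    omega
  have hloc : ∀ v, ∃ a b c, a ≠ b ∧ a ≠ c ∧ b ≠ c ∧ (∀ u, G.Adj v u ↔ u = a ∨ u = b ∨ u = c) ∧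
      G.Adj a b ∧ ¬ G.Adj a c ∧ ¬ G.Adj b c := by
    intro v
    have key : ∀ a b c, a ≠ b → a ≠ c → b ≠ c → (∀ u, G.Adj v u ↔ u = a ∨ u = b ∨ u = c) →
        G.Adj a b → ¬ G.Adj a c ∧ ¬ G.Adj b c := by
      intro a b c hab hac hbc h h1
      have hva : G.Adj v a := (h a).mpr (Or.inl rfl)
      have hvb : G.Adj v b := (h b).mpr (Or.inr (Or.inl rfl))
      have hvc : G.Adj v c := (h c).mpr (Or.inr (Or.inr rfl))
      constructor
      · intro h2
        have h3 := hdf b v a c hbc hvb.symm h1.symm hva hvc h2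
        exact hK4 v a b c hva hvb hvc hab hac hbc h1 h2 h3
      · intro h3
        have h2 := hdf a v b c hac hva.symm h1 hvb hvc h3
        exact hK4 v a b c hva hvb hvc hab hac hbc h1 h2 h3
    obtain ⟨a, b, c, hab, hac, hbc, h⟩ := hc v
    have hva : G.Adj v a := (h a).mpr (Or.inl rfl)
    have hvb : G.Adj v b := (h b).mpr (Or.inr (Or.inl rfl))
    have hvc : G.Adj v c := (h c).mpr (Or.inr (Or.inr rfl))
    rcases hcf v a b c hva hvb hvc hab hac hbc with h1 | h1 | h1
    · exact ⟨a, b, c, hab, hac, hbc, h, h1, key a b c hab hac hbc h h1⟩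
    · have h' : ∀ u, G.Adj v u ↔ u = a ∨ u = c ∨ u = b := fun u => by rw [h]; tauto
      exact ⟨a, c, b, hac, hab, hbc.symm, h', h1, key a c b hac hab hbc.symm h' h1⟩
    · have h' : ∀ u, G.Adj v u ↔ u = b ∨ u = c ∨ u = a := fun u => by rw [h]; tauto
      exact ⟨b, c, a, hbc, hab.symm, hac.symm, h', h1, key b c a hbc hab.symm hac.symm h' h1⟩
  choose a b c hab hac hbc hN habj hacj hbcj using hloc
  have hva : ∀ v, G.Adj v (a v) := fun v => (hN v _).mpr (Or.inl rfl)
  have hvb : ∀ v, G.Adj v (b v) := fun v => (hN v _).mpr (Or.inr (Or.inl rfl))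
  have hvc : ∀ v, G.Adj v (c v) := fun v => (hN v _).mpr (Or.inr (Or.inr rfl))
  have pair : ∀ v x y, G.Adj v x → G.Adj v y → G.Adj x y →
      (x = a v ∧ y = b v) ∨ (x = b v ∧ y = a v) := by
    intro v x y hx hy hxy
    rw [hN] at hx hy
    rcases hx with rfl | rfl | rfl <;> rcases hy with rfl | rfl | rfl
    · exact absurd hxy (G.irrefl)
    · exact Or.inl ⟨rfl, rfl⟩
    · exact absurd hxy (hacj v)
    · exact Or.inr ⟨rfl, rfl⟩
    · exact absurd hxy (G.irrefl)
    · exact absurd hxy (hbcj v)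
    · exact absurd hxy.symm (hacj v)
    · exact absurd hxy.symm (hbcj v)
    · exact absurd hxy (G.irrefl)
  refine ⟨⟨fun v => {v, a v, b v}, c, ?_, ?_, ?_, ?_, ?_, ?_⟩⟩
  · intro v; simp
  · intro v
    rw [card_eq_three]
    exact ⟨v, a v, b v, (hva v).ne, (hvb v).ne, hab v, rfl⟩
  · intro v u hu
    simp only [mem_insert, mem_singleton] at hu
    rcases hu with rfl | rfl | rfl
    · rfl
    · rcases pair (a v) v (b v) (hva v).symm (habj v) (hvb v) with ⟨h1, h2⟩ | ⟨h1, h2⟩
      · ext x
        simp only [mem_insert, mem_singleton, ← h1, ← h2]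
        tauto
      · ext x
        simp only [mem_insert, mem_singleton, ← h1, ← h2]
        tauto
    · rcases pair (b v) v (a v) (hvb v).symm (habj v).symm (hva v) with ⟨h1, h2⟩ | ⟨h1, h2⟩
      · ext x
        simp only [mem_insert, mem_singleton, ← h1, ← h2]
        tauto
      · ext x
        simp only [mem_insert, mem_singleton, ← h1, ← h2]
        tauto
  · intro v
    have h1 := (hvc v).symm
    rw [hN] at h1
    rcases h1 with h1 | h1 | h1
    · exfalso
      have h2 : G.Adj v (b (c v)) := by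
        have := habj (c v)
        rwa [← h1] at this
      rcases pair v (c v) (b (c v)) (hvc v) h2 (hvb (c v)) with ⟨h3, _⟩ | ⟨h3, _⟩
      · exact hac v h3.symm
      · exact hbc v h3.symm
    · exfalso
      have h2 : G.Adj v (a (c v)) := by
        have := (habj (c v)).symm
        rwa [← h1] at this
      rcases pair v (c v) (a (c v)) (hvc v) h2 (hva (c v)) with ⟨h3, _⟩ | ⟨h3, _⟩
      · exact hac v h3.symm
      · exact hbc v h3.symm
    · exact h1.symm
  · intro v h
    have h1 : c v ∈ ({v, a v, b v} : Finset V) := by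
      have h2 : c v ∈ ({c v, a (c v), b (c v)} : Finset V) := by simp
      rw [← h]
      exact h2
    simp only [mem_insert, mem_singleton] at h1
    rcases h1 with h1 | h1 | h1
    · exact (hvc v).ne h1.symm
    · exact hac v h1.symm
    · exact hbc v h1.symm
  · intro v u
    rw [hN]
    simp only [mem_insert, mem_singleton]
    constructor
    · rintro (rfl | rfl | rfl)
      · exact Or.inl ⟨Or.inr (Or.inl rfl), (hva v).ne.symm⟩
      · exact Or.inl ⟨Or.inr (Or.inr rfl), (hvb v).ne.symm⟩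
      · exact Or.inr rfl
    · rintro (⟨rfl | h1 | h1, h2⟩ | h1)
      · exact absurd rfl h2
      · exact Or.inl h1
      · exact Or.inr (Or.inl h1)
      · exact Or.inr (Or.inr h1)

end Pool.Agent.X71.Td
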