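import Pool.Agent.X71.Td.Loc

/-!
# Graphs glued from triangles, and the lower bound for their total domination number
-/

set_option autoImplicit false
set_option linter.unusedSectionVars false

open Finset

namespace Pool.Agent.X71.Td

variable {H : Type*}

/-- the graph glued from triangles with the cross edges given by an involution -/
def gr (ι : H × Fin 3 → H × Fin 3) (inv : ∀ x, ι (ι x) = x) (nf : ∀ x, (ι x).1 ≠ x.1) :
    SimpleGraph (H × Fin 3) where
  Adj x y := (x.1 = y.1 ∧ x ≠ y) ∨ ι x = y
  symm := ⟨by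
    rintro x y (⟨h1, h2⟩ | h)
    · exact Or.inl ⟨h1.symm, h2.symm⟩
    · exact Or.inr (by rw [← h, inv])⟩
  loopless := ⟨by
    rintro x (⟨_, h⟩ | h)
    · exact h rfl
    · exact nf x (by rw [h])⟩

variable {ι : H × Fin 3 → H × Fin 3} {inv : ∀ x, ι (ι x) = x} {nf : ∀ x, (ι x).1 ≠ x.1}

lemma gr_adj {x y : H × Fin 3} : (gr ι inv nf).Adj x y ↔ (x.1 = y.1 ∧ x ≠ y) ∨ ι x = y := Iff.rfl

lemma fin3 : ∀ i j : Fin 3, i ≠ j ↔ j = i + 1 ∨ j = i + 2 := by decide

lemma fin3' : ∀ i : Fin 3, i + 1 ≠ i + 2 := by decide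

lemma gr_cubic : Cubic (gr ι inv nf) := by
  rintro ⟨h, i⟩
  refine ⟨(h, i + 1), (h, i + 2), ι (h, i), ?_, ?_, ?_, ?_⟩
  · intro he
    exact fin3' i (congrArg Prod.snd he)
  · intro he
    exact nf (h, i) (by rw [← he])
  · intro he
    exact nf (h, i) (by rw [← he])
  · rintro ⟨h', j⟩
    rw [gr_adj]
    constructor
    · rintro (⟨h1, h2⟩ | h1)
      · simp only at h1
        subst h1
        have h3 : i ≠ j := fun h3 => h2 (by rw [h3])
        rcases (fin3 i j).mp h3 with h4 | h4
        · exact Or.inl (by rw [h4])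
        · exact Or.inr (Or.inl (by rw [h4]))
      · exact Or.inr (Or.inr h1.symm)
    · rintro (h1 | h1 | h1)
      · left
        obtain ⟨rfl, rfl⟩ := Prod.mk.injEq _ _ _ _ ▸ h1
        refine ⟨rfl, fun h2 => ?_⟩
        exact ((fin3 i (i + 1)).mpr (Or.inl rfl)) (congrArg Prod.snd h2)
      · left
        obtain ⟨rfl, rfl⟩ := Prod.mk.injEq _ _ _ _ ▸ h1
        refine ⟨rfl, fun h2 => ?_⟩
        exact ((fin3 i (i + 2)).mpr (Or.inr rfl)) (congrArg Prod.snd h2)
      · exact Or.inr h1.symm

lemma gr_claw : ClawFree (gr ι inv nf) := by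
  intro v a b c ha hb hc hab hac hbc
  rw [gr_adj] at ha hb hc
  rcases ha with ⟨ha, _⟩ | ha <;> rcases hb with ⟨hb, _⟩ | hb
  · exact Or.inl (Or.inl ⟨ha.symm.trans hb, hab⟩)
  · rcases hc with ⟨hc, _⟩ | hc
    · exact Or.inr (Or.inl (Or.inl ⟨ha.symm.trans hc, hac⟩))
    · exact absurd (hb.symm.trans hc) hbc
  · rcases hc with ⟨hc, _⟩ | hc
    · exact Or.inr (Or.inr (Or.inl ⟨hb.symm.trans hc, hbc⟩))
    · exact absurd (ha.symm.trans hc) hac
  · exact absurd (ha.symm.trans hb) hab

lemma gr_tri {a b c : H × Fin 3} (hab : (gr ι inv nf).Adj a b) (hac : (gr ι inv nf).Adj a c)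
    (hbc : (gr ι inv nf).Adj b c) : a.1 = b.1 := by
  rw [gr_adj] at hab hac hbc
  rcases hab with ⟨h, _⟩ | h
  · exact h
  · exfalso
    rcases hac with ⟨h1, h1'⟩ | h1
    · rcases hbc with ⟨h2, _⟩ | h2
      · have h3 : (ι a).1 = a.1 := by rw [h, h2, h1]
        exact nf a h3
      · have h3 : c = a := by rw [← h2, ← h, inv]
        exact h1' h3.symm
    · rw [← h, ← h1] at hbc
      rcases hbc with ⟨_, h2⟩ | h2
      · exact h2 rfl
      · exact nf (ι a) (by rw [h2])

lemma gr_diamond : DiamondFree (gr ι inv nf) := by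
  intro a b c d had hab hac hbc hbd hcd
  have h1 := gr_tri hab hac hbc
  have h2 := gr_tri hbd.symm hcd.symm hbc
  exact Or.inl ⟨by rw [h1, h2], had⟩

/-- two triangles are joined -/
def Rl (ι : H × Fin 3 → H × Fin 3) (a b : H) : Prop := ∃ i j, ι (a, i) = (b, j)

lemma gr_connected [Nonempty H] (hconn : ∀ a b, Relation.ReflTransGen (Rl ι) a b) :
    (gr ι inv nf).Connected := by
  have hsame : ∀ x y : H × Fin 3, x.1 = y.1 → (gr ι inv nf).Reachable x y := by
    intro x y h
    by_cases hxy : x = y
    · rw [hxy]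
    · exact SimpleGraph.Adj.reachable (Or.inl ⟨h, hxy⟩)
  rw [SimpleGraph.connected_iff]
  refine ⟨fun x y => ?_, ?_⟩
  · have h := hconn x.1 y.1
    have key : ∀ b, Relation.ReflTransGen (Rl ι) x.1 b → ∀ z : H × Fin 3, z.1 = b →
        (gr ι inv nf).Reachable x z := by
      intro b hb
      induction hb with
      | refl => intro z hz; exact hsame _ _ hz.symm
      | tail _ hbc ih =>
        intro z hz
        obtain ⟨i, j, hij⟩ := hbc
        have h1 := ih (_, i) rfl
        refine h1.trans (SimpleGraph.Reachable.trans (SimpleGraph.Adj.reachable (Or.inr hij)) ?_)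
        exact hsame _ _ hz.symm
    exact key _ h y rfl
  · exact ⟨(Classical.arbitrary H, 0)⟩

section low

variable [Fintype H] [DecidableEq H] {I : Type*} [Fintype I] [DecidableEq I]
  (lab : H → Option I)

/-- the positions in the component `i` -/
def WW (i : I) : Finset (H × Fin 3) := univ.filter fun x => lab x.1 = some i

/-- the positions whose outer neighbour is in the component `i` -/
def BB (ι : H × Fin 3 → H × Fin 3) (i : I) : Finset (H × Fin 3) :=
  univ.filter fun x => lab x.1 = none ∧ lab (ι x).1 = some i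

lemma card_WW (i : I) : (WW lab i).card = 3 * (univ.filter fun h => lab h = some i).card := by
  have : WW lab i = (univ.filter fun h => lab h = some i) ×ˢ (univ : Finset (Fin 3)) := by
    ext x
    simp [WW]
  rw [this, card_product, card_univ, Fintype.card_fin, mul_comm]

variable {lab} (hcl : ∀ x i, lab x.1 = some i → lab (ι x).1 = some i ∨ lab (ι x).1 = none)

include hcl in
lemma low_one {S : Finset (H × Fin 3)} (hS : ∀ v, ∃ u ∈ S, (gr ι inv nf).Adj v u) {i : I}
    (hodd : Odd (univ.filter fun h => lab h = some i).card) :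
    (univ.filter fun h => lab h = some i).card + 1 ≤
      (S.filter fun x => x ∈ WW lab i).card + (S.filter fun x => x ∈ BB lab ι i).card := by
  classical
  set G := gr ι inv nf with hG
  set k := (univ.filter fun h => lab h = some i).card with hk
  have hW : (WW lab i).card = 3 * k := card_WW lab i
  -- neighbours of `W` are in `W ∪ B`
  have hnb : ∀ v ∈ WW lab i, ∀ s, G.Adj v s → s ∈ WW lab i ∨ s ∈ BB lab ι i := by
    intro v hv s hvs
    rw [WW, mem_filter] at hv
    rw [hG, gr_adj] at hvs
    rcases hvs with ⟨h1, _⟩ | h1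
    · left
      rw [WW, mem_filter, ← h1]
      exact ⟨mem_univ _, hv.2⟩
    · rcases hcl v i hv.2 with h2 | h2
      · left
        rw [WW, mem_filter, ← h1]
        exact ⟨mem_univ _, h2⟩
      · right
        rw [BB, mem_filter, ← h1, inv]
        exact ⟨mem_univ _, h2, hv.2⟩
  have hr3 : ∀ s, ((WW lab i).filter fun v => G.Adj v s).card ≤ 3 := by
    intro s
    obtain ⟨a, b, c, _, _, _, h⟩ := gr_cubic (ι := ι) (inv := inv) (nf := nf) s
    have h1 : ((WW lab i).filter fun v => G.Adj v s) ⊆ {a, b, c} := by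
      intro v hv
      rw [mem_filter] at hv
      have := (h v).mp hv.2.symm
      simpa using this
    exact (card_le_card h1).trans card_le_three
  have hr1 : ∀ s, s ∉ WW lab i → ((WW lab i).filter fun v => G.Adj v s).card ≤ 1 := by
    intro s hs
    rw [card_le_one]
    have key : ∀ v ∈ (WW lab i).filter fun v => G.Adj v s, ι v = s := by
      intro v hv
      rw [mem_filter] at hv
      rcases hv.2 with ⟨h1, _⟩ | h1
      · exfalso
        apply hs
        have h2 := hv.1
        rw [WW, mem_filter] at h2 ⊢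
        rw [← h1]
        exact ⟨mem_univ _, h2.2⟩
      · exact h1
    intro v hv v' hv'
    rw [← inv v, ← inv v', key v hv, key v' hv']
  have hr0 : ∀ s, s ∉ WW lab i → s ∉ BB lab ι i →
      ((WW lab i).filter fun v => G.Adj v s).card = 0 := by
    intro s h1 h2
    rw [card_eq_zero, filter_eq_empty_iff]
    intro v hv hvs
    rcases hnb v hv s hvs with h | h
    · exact h1 h
    · exact h2 h
  have hdc : ∑ v ∈ WW lab i, (S.filter fun s => G.Adj v s).card =
      ∑ s ∈ S, ((WW lab i).filter fun v => G.Adj v s).card :=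
    sum_card_bipartiteAbove_eq_sum_card_bipartiteBelow G.Adj
  have hd1 : ∀ v ∈ WW lab i, 1 ≤ (S.filter fun s => G.Adj v s).card := by
    intro v _
    obtain ⟨u, hu, huv⟩ := hS v
    exact card_pos.mpr ⟨u, mem_filter.mpr ⟨hu, huv⟩⟩
  have hup : ∑ s ∈ S, ((WW lab i).filter fun v => G.Adj v s).card ≤
      3 * (S.filter fun x => x ∈ WW lab i).card + (S.filter fun x => x ∈ BB lab ι i).card := by
    have h1 : ∀ s ∈ S, ((WW lab i).filter fun v => G.Adj v s).card ≤
        3 * (if s ∈ WW lab i then 1 else 0) + (if s ∈ BB lab ι i then 1 else 0) := by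
      intro s _
      by_cases h1 : s ∈ WW lab i
      · rw [if_pos h1]
        have := hr3 s
        omega
      · by_cases h2 : s ∈ BB lab ι i
        · rw [if_neg h1, if_pos h2]
          have := hr1 s h1
          omega
        · rw [hr0 s h1 h2]
          exact Nat.zero_le _
    refine (sum_le_sum h1).trans ?_
    rw [sum_add_distrib, ← mul_sum, card_filter, card_filter]
  by_contra hlt
  push Not at hlt
  have hlow : 3 * k ≤ ∑ v ∈ WW lab i, (S.filter fun s => G.Adj v s).card := by
    rw [← hW]
    have := card_nsmul_le_sum (WW lab i) (fun v => (S.filter fun s => G.Adj v s).card) 1 hd1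
    simpa using this
  rw [hdc] at hlow
  have hB0 : (S.filter fun x => x ∈ BB lab ι i).card = 0 := by omega
  have hWk : (S.filter fun x => x ∈ WW lab i).card = k := by omega
  have hsum : ∑ v ∈ WW lab i, (S.filter fun s => G.Adj v s).card = 3 * k := by
    rw [hdc]; omega
  have hd : ∀ v ∈ WW lab i, (S.filter fun s => G.Adj v s).card = 1 := by
    intro v hv
    by_contra hne
    have h1 : ∑ v ∈ WW lab i, 1 < ∑ v ∈ WW lab i, (S.filter fun s => G.Adj v s).card :=
      sum_lt_sum hd1 ⟨v, hv, lt_of_le_of_ne (hd1 v hv) (Ne.symm hne)⟩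
    rw [hsum, sum_const, smul_eq_mul, mul_one, hW] at h1
    exact lt_irrefl _ h1
  -- the perfect pairing of `S ∩ W`
  have hpair : ∀ s ∈ S.filter fun x => x ∈ WW lab i, ∃ s' ∈ S.filter fun x => x ∈ WW lab i,
      G.Adj s s' := by
    intro s hs
    rw [mem_filter] at hs
    obtain ⟨u, hu, huv⟩ := hS s
    refine ⟨u, ?_, huv⟩
    rw [mem_filter]
    refine ⟨hu, ?_⟩
    rcases hnb s hs.2 u huv with h | h
    · exact h
    · rw [card_eq_zero, filter_eq_empty_iff] at hB0
      exact absurd h (hB0 hu)
  choose! g hg1 hg2 using hpair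
  have hev : ∑ s ∈ S.filter (fun x => x ∈ WW lab i), (1 : ZMod 2) = 0 := by
    refine sum_involution (fun s _ => g s) (fun s _ => by decide) (fun s hs _ h1 => ?_)
      (fun s hs => hg1 s hs) (fun s hs => ?_)
    · have := hg2 s hs
      rw [h1] at this
      exact G.irrefl this
    · have h1 := hd (g s) (mem_filter.mp (hg1 s hs)).2
      rw [card_eq_one] at h1
      obtain ⟨z, hz⟩ := h1
      have h2 : s ∈ S.filter fun x => G.Adj (g s) x :=
        mem_filter.mpr ⟨(mem_filter.mp hs).1, (hg2 s hs).symm⟩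
      have h3 : g (g s) ∈ S.filter fun x => G.Adj (g s) x :=
        mem_filter.mpr ⟨(mem_filter.mp (hg1 _ (hg1 s hs))).1, hg2 _ (hg1 s hs)⟩
      rw [hz, mem_singleton] at h2 h3
      exact h3.trans h2.symm
  rw [sum_const, nsmul_eq_mul, mul_one, hWk] at hev
  have hev' := (ZMod.natCast_eq_zero_iff_even).mp hev
  exact (Nat.not_even_iff_odd.mpr hodd) hev'

include hcl in
theorem low_all {S : Finset (H × Fin 3)} (hS : ∀ v, ∃ u ∈ S, (gr ι inv nf).Adj v u)
    (hodd : ∀ i, Odd (univ.filter fun h => lab h = some i).card) {d : ℕ}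
    (hI : Fintype.card I = (univ.filter fun h => lab h = none).card + d) :
    Fintype.card H + d ≤ S.card := by
  classical
  have h1 : ∑ i : I, ((univ.filter fun h => lab h = some i).card + 1) ≤
      ∑ i : I, (S.filter fun x => x ∈ WW lab i ∨ x ∈ BB lab ι i).card := by
    refine sum_le_sum fun i _ => ?_
    refine (low_one hcl hS (hodd i)).trans ?_
    rw [filter_or, card_union_of_disjoint]
    rw [disjoint_left]
    intro x hx hx'
    have h2 := (mem_filter.mp hx).2
    have h3 := (mem_filter.mp hx').2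
    rw [WW, mem_filter] at h2
    rw [BB, mem_filter] at h3
    rw [h2.2] at h3
    exact absurd h3.2.1 (by simp)
  have h2 : ∑ i : I, (S.filter fun x => x ∈ WW lab i ∨ x ∈ BB lab ι i).card ≤ S.card := by
    rw [← card_biUnion]
    · refine card_le_card ?_
      intro x hx
      obtain ⟨i, _, h⟩ := mem_biUnion.mp hx
      exact (mem_filter.mp h).1
    · intro i _ j _ hij
      show Disjoint (S.filter fun x => x ∈ WW lab i ∨ x ∈ BB lab ι i)
        (S.filter fun x => x ∈ WW lab j ∨ x ∈ BB lab ι j)
      rw [disjoint_left]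
      intro x hx hx'
      have h3 := (mem_filter.mp hx).2
      have h4 := (mem_filter.mp hx').2
      simp only [WW, BB, mem_filter, mem_univ, true_and] at h3 h4
      rcases h3 with h3 | ⟨h3, h3'⟩ <;> rcases h4 with h4 | ⟨h4, h4'⟩
      · rw [h3] at h4
        exact hij (Option.some.inj h4)
      · rw [h3] at h4
        exact absurd h4 (by simp)
      · rw [h3] at h4
        exact absurd h4 (by simp)
      · rw [h3'] at h4'
        exact hij (Option.some.inj h4')
  have h3 : ∑ i : I, (univ.filter fun h => lab h = some i).card +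
      (univ.filter fun h => lab h = none).card = Fintype.card H := by
    have h4 : Fintype.card H = ∑ o : Option I, (univ.filter fun h => lab h = o).card := by
      rw [← card_univ, card_eq_sum_card_fiberwise (f := lab) (t := univ)
        (fun _ _ => mem_coe.mpr (mem_univ _))]
    rw [h4, Fintype.sum_option, add_comm]
  rw [sum_add_distrib, sum_const, smul_eq_mul, mul_one, card_univ] at h1
  omega

end low

end Pool.Agent.X71.Td
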