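import Pool.Agent.X71.Td.Loc
import Pool.Agent.H168DD.TB

/-!
# The upper bound for the total domination number
-/

set_option autoImplicit false
set_option linter.unusedSectionVars false

open Finset

namespace Pool.Agent.X71.Td

variable {V : Type*} [Fintype V] [DecidableEq V] {G : SimpleGraph V} (D : TriData G)

/-- the set of triangles -/
def TT : Finset (Finset V) := univ.image D.t

lemma t_mem (v : V) : D.t v ∈ TT D := mem_image_of_mem _ (mem_univ _)

lemma t_eq_iff (u v : V) : D.t u = D.t v ↔ u ∈ D.t v := by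
  constructor
  · intro h
    rw [← h]
    exact D.mem u
  · exact D.same v u

lemma card_fiber {x : Finset V} (hx : x ∈ TT D) : (univ.filter fun u => D.t u = x).card = 3 := by
  obtain ⟨v, _, rfl⟩ := mem_image.mp hx
  have : (univ.filter fun u => D.t u = D.t v) = D.t v := by
    ext u
    rw [mem_filter, t_eq_iff]
    simp
  rw [this, D.card]

lemma card_pre {O : Finset (Finset V)} (hO : O ⊆ TT D) :
    (univ.filter fun v => D.t v ∈ O).card = 3 * O.card := by
  rw [card_eq_sum_card_fiberwise (f := D.t) (t := O)]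
  · rw [sum_congr rfl (g := fun _ => 3), sum_const, smul_eq_mul, mul_comm]
    intro x hx
    rw [filter_filter, ← card_fiber D (hO hx)]
    congr 1
    ext u
    simp only [mem_filter, mem_univ, true_and]
    constructor
    · exact fun h => h.2
    · rintro rfl
      exact ⟨hx, rfl⟩
  · intro v hv
    exact (mem_filter.mp (mem_coe.mp hv)).2

lemma card_V : Fintype.card V = 3 * (TT D).card := by
  rw [← card_pre D (Subset.refl _), ← card_univ]
  congr 1
  ext v
  simp [t_mem]

/-- the graph of triangles -/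
def HG : SimpleGraph (Finset V) where
  Adj x y := x ≠ y ∧ ∃ v, D.t v = x ∧ D.t (D.c v) = y
  symm := ⟨by
    rintro x y ⟨h, v, h1, h2⟩
    exact ⟨h.symm, D.c v, h2, by rw [D.cc]; exact h1⟩⟩
  loopless := ⟨fun x h => h.1 rfl⟩

lemma c_inj {u v : V} (h : D.c u = D.c v) : u = v := by
  rw [← D.cc u, h, D.cc]

lemma even_inner (O : Finset (Finset V)) :
    Even (univ.filter fun v => D.t v ∈ O ∧ D.t (D.c v) ∈ O).card := by
  have h : ∑ v ∈ univ.filter (fun v => D.t v ∈ O ∧ D.t (D.c v) ∈ O), (1 : ZMod 2) = 0 := by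
    refine sum_involution (fun v _ => D.c v) (fun v _ => by decide) (fun v hv _ h1 => ?_)
      (fun v hv => ?_) (fun v _ => D.cc v)
    · exact D.tc v (by rw [h1])
    · simp only [mem_filter, mem_univ, true_and] at hv ⊢
      rw [D.cc]
      exact ⟨hv.2, hv.1⟩
  rw [sum_const, nsmul_eq_mul, mul_one] at h
  exact (ZMod.natCast_eq_zero_iff_even).mp h

/-- the vertices whose outer neighbour leaves `O` -/
def EO (O : Finset (Finset V)) : Finset V := univ.filter fun v => D.t v ∈ O ∧ D.t (D.c v) ∉ O

lemma card_EO_add {O : Finset (Finset V)} (hO : O ⊆ TT D) :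
    (univ.filter fun v => D.t v ∈ O ∧ D.t (D.c v) ∈ O).card + (EO D O).card = 3 * O.card := by
  rw [← card_pre D hO, EO, ← filter_filter, ← filter_filter]
  exact card_filter_add_card_filter_not _

lemma four_le {O : Finset (Finset V)} (hO : O ⊆ TT D) (hodd : Odd O.card) :
    4 ≤ O.card + (EO D O).card := by
  have h1 := card_EO_add D hO
  have h2 := even_inner D O
  obtain ⟨k, hk⟩ := hodd
  obtain ⟨l, hl⟩ := h2
  by_cases h3 : O.card = 1
  · obtain ⟨x, hx⟩ := card_eq_one.mp h3
    have h4 : (univ.filter fun v => D.t v ∈ O ∧ D.t (D.c v) ∈ O) = ∅ := by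
      rw [filter_eq_empty_iff]
      rintro v _ ⟨h5, h6⟩
      rw [hx, mem_singleton] at h5 h6
      exact D.tc v (by rw [h5, h6])
    rw [h4, card_empty] at h1
    omega
  · omega

section cond

variable {A : Finset (Finset V)} {F : Finset (Finset (Finset V))} (hA : A ⊆ TT D)
  (hodd : ∀ O ∈ F, Odd O.card) (hdisj : ∀ O ∈ F, ∀ O' ∈ F, O ≠ O' → Disjoint O O')
  (hsub : ∀ O ∈ F, O ⊆ TT D \ A)
  (hcl : ∀ O ∈ F, ∀ x ∈ O, ∀ y ∈ TT D, (HG D).Adj x y → y ∈ O ∨ y ∈ A)

include hcl in
lemma EO_A {O : Finset (Finset V)} (hO : O ∈ F) {v : V} (hv : v ∈ EO D O) : D.t (D.c v) ∈ A := by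
  rw [EO, mem_filter] at hv
  rcases hcl O hO (D.t v) hv.2.1 (D.t (D.c v)) (t_mem D _) ⟨(D.tc v).symm, v, rfl, rfl⟩ with h | h
  · exact absurd h hv.2.2
  · exact h

include hdisj in
lemma same_O {O O' : Finset (Finset V)} (hO : O ∈ F) (hO' : O' ∈ F) {x : Finset V} (hx : x ∈ O)
    (hx' : x ∈ O') : O = O' := by
  by_contra h
  exact (disjoint_left.mp (hdisj O hO O' hO' h)) hx hx'

include hA hdisj hcl in
lemma sum_EO : ∑ O ∈ F, (EO D O).card ≤ 3 * A.card := by
  have h1 : (F.biUnion fun O => EO D O).card = ∑ O ∈ F, (EO D O).card := by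
    refine card_biUnion fun O hO O' hO' hne => ?_
    show Disjoint (EO D O) (EO D O')
    rw [disjoint_left]
    intro v hv hv'
    rw [EO, mem_filter] at hv hv'
    exact hne (same_O hdisj hO hO' hv.2.1 hv'.2.1)
  rw [← h1, ← card_pre D hA]
  refine card_le_card_of_injOn D.c ?_ (fun u _ v _ h => c_inj D h)
  intro v hv
  obtain ⟨O, hO, hv⟩ := mem_biUnion.mp (mem_coe.mp hv)
  exact mem_coe.mpr (mem_filter.mpr ⟨mem_univ _, EO_A D hcl hO hv⟩)

include hA hodd hdisj hsub hcl in
lemma count1 : 4 * F.card + A.card ≤ (TT D).card + 3 * A.card := by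
  have h1 : (F.biUnion id).card = ∑ O ∈ F, O.card :=
    card_biUnion fun O hO O' hO' hne => hdisj O hO O' hO' hne
  have h2 : (F.biUnion id).card + A.card ≤ (TT D).card := by
    have h3 : F.biUnion id ⊆ TT D \ A := by
      intro x hx
      obtain ⟨O, hO, hx⟩ := mem_biUnion.mp hx
      exact hsub O hO hx
    have h4 := card_le_card h3
    rw [card_sdiff_of_subset hA] at h4
    have h5 := card_le_card hA
    omega
  have h3 := sum_EO D hA hdisj hcl
  have h4 : ∑ O ∈ F, 4 ≤ ∑ O ∈ F, (O.card + (EO D O).card) :=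
    sum_le_sum fun O hO => four_le D ((hsub O hO).trans sdiff_subset) (hodd O hO)
  rw [sum_const, smul_eq_mul, sum_add_distrib] at h4
  omega

include hA hodd hdisj hsub hcl in
lemma count2 (hG : G.Connected) : F.card ≤ 2 * A.card + 1 := by
  classical
  rcases F.eq_empty_or_nonempty with h0 | ⟨O0, hO0⟩
  · rw [h0]; simp
  have hne : ∀ O ∈ F, O.Nonempty := by
    intro O hO
    rw [← card_pos]
    exact (hodd O hO).pos
  have hv : ∀ O ∈ F, ∃ v, D.t v ∈ O := by
    intro O hO
    obtain ⟨x, hx⟩ := hne O hO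
    obtain ⟨v, _, rfl⟩ := mem_image.mp ((mem_sdiff.mp (hsub O hO hx)).1)
    exact ⟨v, hx⟩
  obtain ⟨v0, hv0⟩ := hv O0 hO0
  have hclose : ∀ v, v ≠ v0 → ∃ w, G.Adj v w ∧ G.dist v0 w < G.dist v0 v := by
    intro v hvv
    obtain ⟨p, hp⟩ := (hG.preconnected v v0).exists_walk_length_eq_dist
    cases p with
    | nil => exact absurd rfl hvv
    | cons h q =>
      rename_i w
      refine ⟨w, h, ?_⟩
      rw [SimpleGraph.dist_comm, SimpleGraph.dist_comm (u := v0) (v := v), ← hp,
        SimpleGraph.Walk.length_cons]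
      exact Nat.lt_succ_of_le (SimpleGraph.dist_le q)
  -- exits
  have hexit : ∀ (P : Finset V → Prop), (∃ v, P (D.t v)) → ¬ P (D.t v0) →
      ∃ v, P (D.t v) ∧ ¬ P (D.t (D.c v)) ∧ G.dist v0 (D.c v) < G.dist v0 v := by
    intro P hP hP0
    have hfin : (univ.filter fun v => P (D.t v)).Nonempty := by
      obtain ⟨v, hv⟩ := hP
      exact ⟨v, mem_filter.mpr ⟨mem_univ _, hv⟩⟩
    obtain ⟨v, hv1, hv2⟩ := exists_min_image _ (fun v => G.dist v0 v) hfin
    rw [mem_filter] at hv1
    have hvv : v ≠ v0 := by rintro rfl; exact hP0 hv1.2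
    obtain ⟨w, hw1, hw2⟩ := hclose v hvv
    have hw3 : ¬ P (D.t w) := by
      intro h
      have := hv2 w (mem_filter.mpr ⟨mem_univ _, h⟩)
      omega
    rw [D.adj] at hw1
    rcases hw1 with ⟨h1, _⟩ | h1
    · rw [D.same v w h1] at hw3
      exact absurd hv1.2 hw3
    · subst h1
      exact ⟨v, hv1.2, hw3, hw2⟩
  have hF : ∀ O ∈ F.erase O0, ∃ v, D.t v ∈ O ∧ D.t (D.c v) ∈ A ∧
      G.dist v0 (D.c v) < G.dist v0 v := by
    intro O hO
    rw [mem_erase] at hO
    have h1 : D.t v0 ∉ O := fun h => hO.1 (same_O hdisj hO.2 hO0 h hv0)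
    obtain ⟨v, h2, h3, h4⟩ := hexit (fun x => x ∈ O) (hv O hO.2) h1
    exact ⟨v, h2, EO_A D hcl hO.2 (mem_filter.mpr ⟨mem_univ _, h2, h3⟩), h4⟩
  have hAe : ∀ s ∈ A, ∃ w, D.t w = s ∧ G.dist v0 (D.c w) < G.dist v0 w := by
    intro s hs
    have h1 : ¬ (D.t v0 = s) := by
      rintro h
      have := (mem_sdiff.mp (hsub O0 hO0 hv0)).2
      rw [h] at this
      exact this hs
    have h2 : ∃ v, D.t v = s := by
      obtain ⟨v, _, h3⟩ := mem_image.mp (hA hs)
      exact ⟨v, h3⟩
    obtain ⟨v, h3, _, h4⟩ := hexit (fun x => x = s) h2 h1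
    exact ⟨v, h3, h4⟩
  haveI : Nonempty V := ⟨v0⟩
  choose! f hf1 hf2 hf3 using hF
  choose! g hg1 hg2 using hAe
  set X := univ.filter fun w => D.t w ∈ A ∧ G.dist v0 w < G.dist v0 (D.c w) with hX
  set Y := A.image g with hY
  have hYc : Y.card = A.card := by
    rw [hY, card_image_of_injOn]
    intro s hs s' hs' h
    have := congrArg D.t h
    rw [hg1 s hs, hg1 s' hs'] at this
    exact this
  have hXY : Disjoint X Y := by
    rw [disjoint_left]
    intro w hw hw'
    obtain ⟨s, hs, rfl⟩ := mem_image.mp hw'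
    have h1 := hg2 s hs
    have h2 := (mem_filter.mp hw).2.2
    omega
  have hsubV : X ∪ Y ⊆ univ.filter fun w => D.t w ∈ A := by
    intro w hw
    rw [mem_filter]
    refine ⟨mem_univ _, ?_⟩
    rcases mem_union.mp hw with h | h
    · exact (mem_filter.mp h).2.1
    · obtain ⟨s, hs, rfl⟩ := mem_image.mp h
      rw [hg1 s hs]
      exact hs
  have h1 := card_le_card hsubV
  rw [card_union_of_disjoint hXY, hYc, card_pre D hA] at h1
  have h2 : (F.erase O0).card ≤ X.card := by
    refine card_le_card_of_injOn (fun O => D.c (f O)) ?_ ?_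
    · intro O hO
      refine mem_coe.mpr (mem_filter.mpr ⟨mem_univ _, hf2 O hO, ?_⟩)
      rw [D.cc]
      exact hf3 O hO
    · intro O hO O' hO' h
      have h3 := c_inj D h
      have h4 := hf1 O hO
      have h5 := hf1 O' hO'
      rw [← h3] at h5
      exact same_O hdisj (mem_of_mem_erase hO) (mem_of_mem_erase hO') h4 h5
  rw [card_erase_of_mem hO0] at h2
  omega

include hA hodd hdisj hsub hcl in
lemma count3 (hG : G.Connected) : 6 * F.card ≤ (TT D).card + 6 * A.card + 2 := by
  have h1 := count1 D hA hodd hdisj hsub hcl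
  have h2 := count2 D hA hodd hdisj hsub hcl hG
  omega

include hA hodd hdisj hsub hcl in
lemma count4 (hG : G.Connected) (hev : Even (TT D).card) :
    F.card ≤ A.card + 2 * (((TT D).card + 2) / 12) := by
  classical
  have h1 := count3 D hA hodd hdisj hsub hcl hG
  by_contra hlt
  push Not at hlt
  -- the rest
  set R := (TT D \ A) \ F.biUnion id with hR
  have hbi : (F.biUnion id).card = ∑ O ∈ F, O.card :=
    card_biUnion fun O hO O' hO' hne => hdisj O hO O' hO' hne
  have hbs : F.biUnion id ⊆ TT D \ A := by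
    intro x hx
    obtain ⟨O, hO, hx⟩ := mem_biUnion.mp hx
    exact hsub O hO hx
  have hRc : R.card + (F.biUnion id).card + A.card = (TT D).card := by
    have h2 := card_sdiff_add_card_eq_card hbs
    have h3 := card_sdiff_add_card_eq_card hA
    rw [← hR] at h2
    omega
  have hpar : (F.biUnion id).card % 2 = F.card % 2 := by
    rw [hbi]
    have : ∀ F' : Finset (Finset (Finset V)), (∀ O ∈ F', Odd O.card) →
        (∑ O ∈ F', O.card) % 2 = F'.card % 2 := by
      intro F'
      induction F' using Finset.induction_on with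
      | empty => intro _; rfl
      | insert O F' hO ih =>
        intro h
        rw [sum_insert hO, card_insert_of_notMem hO]
        have h2 := ih fun O' hO' => h O' (mem_insert_of_mem hO')
        obtain ⟨k, hk⟩ := h O (mem_insert_self _ _)
        omega
    exact this F hodd
  have heq : F.card = A.card + 2 * (((TT D).card + 2) / 12) + 1 := by omega
  have hRodd : Odd R.card := by
    rw [Nat.odd_iff]
    rw [Nat.even_iff] at hev
    omega
  have hRF : R ∉ F := by
    intro h
    obtain ⟨x, hx⟩ := card_pos.mp hRodd.pos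
    have := (mem_sdiff.mp hx).2
    exact this (mem_biUnion.mpr ⟨R, h, hx⟩)
  have hRdis : ∀ O ∈ F, Disjoint R O := by
    intro O hO
    rw [disjoint_left]
    intro x hx hx'
    exact (mem_sdiff.mp hx).2 (mem_biUnion.mpr ⟨O, hO, hx'⟩)
  have h2 := count3 D (F := insert R F) hA
    (by
      intro O hO
      rcases mem_insert.mp hO with rfl | hO
      · exact hRodd
      · exact hodd O hO)
    (by
      intro O hO O' hO' hne
      rcases mem_insert.mp hO with rfl | hO <;> rcases mem_insert.mp hO' with rfl | hO'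
      · exact absurd rfl hne
      · exact hRdis O' hO'
      · exact (hRdis O hO).symm
      · exact hdisj O hO O' hO' hne)
    (by
      intro O hO
      rcases mem_insert.mp hO with rfl | hO
      · exact sdiff_subset
      · exact hsub O hO)
    (by
      intro O hO x hx y hy hxy
      rcases mem_insert.mp hO with rfl | hO
      · by_cases hyA : y ∈ A
        · exact Or.inr hyA
        · left
          rw [hR, mem_sdiff, mem_sdiff]
          refine ⟨⟨hy, hyA⟩, fun hyF => ?_⟩
          obtain ⟨O', hO', hy'⟩ := mem_biUnion.mp hyF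
          have hxR := mem_sdiff.mp hx
          have hxT := mem_sdiff.mp hxR.1
          rcases hcl O' hO' y hy' x hxT.1 hxy.symm with h | h
          · exact hxR.2 (mem_biUnion.mpr ⟨O', hO', h⟩)
          · exact hxT.2 h
      · exact hcl O hO x hx y hy hxy) hG
  rw [card_insert_of_notMem hRF] at h2
  omega

end cond

/-- a total dominating set -/
def TotalDom (G : SimpleGraph V) (S : Finset V) : Prop := ∀ v, ∃ u ∈ S, G.Adj v u

theorem exists_dom (hG : G.Connected) (hev : Even (TT D).card) :
    ∃ S : Finset V, TotalDom G S ∧ S.card ≤ (TT D).card + 2 * (((TT D).card + 2) / 12) := by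
  classical
  set l := 2 * (((TT D).card + 2) / 12) with hl
  obtain ⟨U, m, hUT, hUl, hm⟩ := H168DD.tutte_berge (HG D) (TT D) l
    (hev.add (even_two_mul _))
    (fun A F hA hodd hdisj hsub hcl => count4 D hA hodd hdisj hsub hcl hG hev)
  -- the cross vertices
  haveI : Nonempty V := hG.nonempty
  have he : ∀ x ∈ TT D \ U, ∃ v, D.t v = x ∧ D.t (D.c v) = m x := fun x hx => (hm x hx).2.2.2
  choose! e he1 he2 using he
  have hrep : ∀ x ∈ TT D, ∃ v, D.t v = x := by
    intro x hx
    obtain ⟨v, _, h⟩ := mem_image.mp hx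
    exact ⟨v, h⟩
  choose! rep hrep using hrep
  have hmate : ∀ v, ∃ u, u ∈ D.t v ∧ u ≠ v := by
    intro v
    have h1 : 1 < (D.t v).card := by rw [D.card]; norm_num
    obtain ⟨u, hu, hne⟩ := exists_mem_ne h1 v
    exact ⟨u, hu, hne⟩
  choose mate hmate1 hmate2 using hmate
  let r : Finset V ≃ Fin (Fintype.card (Finset V)) := Fintype.equivFin _
  let w : Finset V → V := fun x => if r x < r (m x) then e x else D.c (e (m x))
  have hw : ∀ x ∈ TT D \ U, D.t (w x) = x ∧ D.c (w x) = w (m x) := by
    intro x hx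
    have hmx := hm x hx
    have hne : x ≠ m x := hmx.2.2.1
    by_cases hr : r x < r (m x)
    · have h1 : w x = e x := if_pos hr
      have h2 : w (m x) = D.c (e x) := by
        show (if r (m x) < r (m (m x)) then e (m x) else D.c (e (m (m x)))) = _
        rw [hmx.2.1, if_neg (not_lt.mpr hr.le)]
      rw [h1, h2]
      exact ⟨he1 x hx, rfl⟩
    · have hr' : r (m x) < r x :=
        lt_of_le_of_ne (not_lt.mp hr) (fun h => hne (r.injective h).symm)
      have h1 : w x = D.c (e (m x)) := if_neg hr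
      have h2 : w (m x) = e (m x) := by
        show (if r (m x) < r (m (m x)) then e (m x) else D.c (e (m (m x)))) = _
        rw [hmx.2.1, if_pos hr']
      rw [h1, h2]
      refine ⟨?_, D.cc _⟩
      rw [he2 (m x) hmx.1, hmx.2.1]
  refine ⟨(TT D \ U).image w ∪ (U.image rep ∪ U.image fun x => mate (rep x)), ?_, ?_⟩
  · intro v
    by_cases hv : D.t v ∈ U
    · have h1 := hrep (D.t v) (t_mem D v)
      have h2 : v ∈ D.t (rep (D.t v)) := by rw [h1]; exact D.mem v
      by_cases h3 : v = rep (D.t v)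
      · refine ⟨mate (rep (D.t v)), ?_, ?_⟩
        · exact mem_union_right _ (mem_union_right _ (mem_image.mpr ⟨_, hv, rfl⟩))
        · rw [← h3, D.adj]
          exact Or.inl ⟨hmate1 v, hmate2 v⟩
      · refine ⟨rep (D.t v), ?_, ?_⟩
        · exact mem_union_right _ (mem_union_left _ (mem_image_of_mem _ hv))
        · rw [D.adj, ← t_eq_iff]
          exact Or.inl ⟨h1, fun h => h3 h.symm⟩
    · have hvT : D.t v ∈ TT D \ U := mem_sdiff.mpr ⟨t_mem D v, hv⟩
      obtain ⟨h1, h2⟩ := hw _ hvT
      by_cases h3 : v = w (D.t v)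
      · refine ⟨w (m (D.t v)), ?_, ?_⟩
        · exact mem_union_left _ (mem_image_of_mem _ (hm _ hvT).1)
        · rw [← h2, ← h3, D.adj]
          exact Or.inr rfl
      · refine ⟨w (D.t v), ?_, ?_⟩
        · exact mem_union_left _ (mem_image_of_mem _ hvT)
        · rw [D.adj, ← t_eq_iff]
          exact Or.inl ⟨h1, fun h => h3 h.symm⟩
  · have h1 := card_union_le ((TT D \ U).image w) (U.image rep ∪ U.image fun x => mate (rep x))
    have h2 := card_union_le (U.image rep) (U.image fun x => mate (rep x))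
    have h3 := card_image_le (s := TT D \ U) (f := w)
    have h4 := card_image_le (s := U) (f := rep)
    have h5 := card_image_le (s := U) (f := fun x => mate (rep x))
    have h6 := card_sdiff_add_card_eq_card hUT
    omega

lemma even_TT : Even (TT D).card := by
  have h1 := even_inner D (TT D)
  have h2 : (univ.filter fun v => D.t v ∈ TT D ∧ D.t (D.c v) ∈ TT D) = univ := by
    rw [filter_true_of_mem]
    exact fun v _ => ⟨t_mem D _, t_mem D _⟩
  rw [h2, card_univ, card_V D] at h1
  rcases Nat.even_mul.mp h1 with h | h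
  · exact absurd h (by decide)
  · exact h

end Pool.Agent.X71.Td
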